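import Pool.Agent.L7h38.PD.Stm

set_option autoImplicit false

/-! Project PD (helper38): tools for the integrations by parts. -/

namespace Pool.Agent.L7h37.PDH

open Pool.Agent.L7h38.PD MeasureTheory Set Filter Topology
open scoped RealInnerProductSpace

theorem integrable_gauss (m : ℕ) (c : ℝ) (hc : 0 < c) :
    Integrable (fun z : E m => Real.exp (-c * ‖z‖ ^ 2)) := by
  have h := (GaussianFourier.integrable_cexp_neg_mul_sq_norm_add (V := E m) (b := (c : ℂ))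
    (by simpa using hc) 0 0).re
  refine h.congr (Eventually.of_forall fun z => ?_)
  simp only [zero_mul, add_zero]
  rw [show (-(c : ℂ) * (‖z‖ : ℂ) ^ 2) = ((-c * ‖z‖ ^ 2 : ℝ) : ℂ) by push_cast; ring]
  rw [← Complex.ofReal_exp]
  rfl

/-- Continuous functions with Gaussian decay. -/
theorem integrable_of_gauss {m : ℕ} (F : E m → ℝ) (hF : Continuous F) (C : ℝ)
    (h : ∀ z, |F z| ≤ C * ((1 + ‖z‖ ^ 2) * Real.exp (-‖z‖ ^ 2 / 2))) : Integrable F := by
  have hC : 0 ≤ C := by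
    by_contra hc
    have := h 0
    have h1 : 0 < ((1 + ‖(0 : E m)‖ ^ 2) * Real.exp (-‖(0 : E m)‖ ^ 2 / 2)) := by positivity
    nlinarith [abs_nonneg (F 0)]
  refine ((integrable_gauss m (1 / 4) (by norm_num)).const_mul (4 * C)).mono'
    hF.aestronglyMeasurable (Eventually.of_forall fun z => ?_)
  rw [Real.norm_eq_abs]
  refine (h z).trans ?_
  have h1 : (1 + ‖z‖ ^ 2) * Real.exp (-‖z‖ ^ 2 / 2) ≤ 4 * Real.exp (-(1 / 4) * ‖z‖ ^ 2) := by
    have h2 : 1 + ‖z‖ ^ 2 ≤ 4 * Real.exp (‖z‖ ^ 2 / 4) := by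
      have := Real.add_one_le_exp (‖z‖ ^ 2 / 4)
      linarith
    calc (1 + ‖z‖ ^ 2) * Real.exp (-‖z‖ ^ 2 / 2) ≤
          4 * Real.exp (‖z‖ ^ 2 / 4) * Real.exp (-‖z‖ ^ 2 / 2) :=
          mul_le_mul_of_nonneg_right h2 (Real.exp_pos _).le
      _ = 4 * Real.exp (-(1 / 4) * ‖z‖ ^ 2) := by
          rw [mul_assoc, ← Real.exp_add]
          congr 2
          ring
  calc C * ((1 + ‖z‖ ^ 2) * Real.exp (-‖z‖ ^ 2 / 2)) ≤ C * (4 * Real.exp (-(1 / 4) * ‖z‖ ^ 2)) :=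
        mul_le_mul_of_nonneg_left h1 hC
    _ = 4 * C * Real.exp (-(1 / 4) * ‖z‖ ^ 2) := by ring

/-- The integral of a derivative. -/
theorem integral_deriv_zero {m : ℕ} (F F' : E m → ℝ) (v : E m) (hF : Integrable F)
    (hF' : Integrable F') (h : ∀ z, HasLineDerivAt ℝ F (F' z) z v) : ∫ z, F' z = 0 := by
  have h1 := integral_bilinear_hasLineDerivAt_right_eq_neg_left_of_integrable
    (μ := (volume : Measure (E m))) (f := F) (f' := F') (g := fun _ => (1 : ℝ)) (g' := fun _ => 0)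
    (v := v) (B := ContinuousLinearMap.mul ℝ ℝ) (by simpa using hF') (by simp)
    (by simpa using hF) (fun z _ => h z) (fun z _ => by
      simpa [HasLineDerivAt] using hasDerivAt_const (0 : ℝ) (1 : ℝ))
  simp only [ContinuousLinearMap.mul_apply', mul_zero, mul_one, integral_zero] at h1
  linarith

theorem vpi_pos (κ : ℝ) {T : ℝ} (hT : 0 < T) : 0 < vpi κ T := by
  rw [vpi]; positivity

theorem hasDerivAt_vpi (κ : ℝ) {T : ℝ} (hT : 0 < T) : HasDerivAt (vpi κ) (dvpi κ T) T := by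
  have h1 := (Real.hasDerivAt_rpow_const (x := T) (p := -κ - 1) (Or.inl hT.ne'))
  have h2 : HasDerivAt (fun T : ℝ => Real.exp (-T / 2)) (Real.exp (-T / 2) * (-1 / 2)) T :=
    (((hasDerivAt_id T).neg.div_const 2)).exp
  have h3 := h1.mul h2
  refine h3.congr_deriv ?_
  rw [dvpi, vpi, Real.rpow_sub_one hT.ne']
  field_simp
  ring

theorem vpi_le (κ : ℝ) (hκ : 0 ≤ κ) {S t : ℝ} (hS : 0 < S) (ht : 0 ≤ t) :
    vpi κ (S + t) ≤ S ^ (-κ - 1) * Real.exp (-t / 2) := by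
  rw [vpi]
  have h1 : (S + t) ^ (-κ - 1) ≤ S ^ (-κ - 1) :=
    Real.rpow_le_rpow_of_nonpos hS (by linarith) (by linarith)
  have h2 : Real.exp (-(S + t) / 2) ≤ Real.exp (-t / 2) := Real.exp_le_exp.2 (by linarith)
  exact mul_le_mul h1 h2 (Real.exp_pos _).le (by positivity)

theorem abs_dvpi_le (κ : ℝ) (hκ : 0 ≤ κ) {S t : ℝ} (hS : 0 < S) (ht : 0 ≤ t) :
    |dvpi κ (S + t)| ≤ ((κ + 1) / S + 1 / 2) * vpi κ (S + t) := by
  have h0 := vpi_pos κ (T := S + t) (by linarith)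
  rw [dvpi, abs_mul, abs_neg, abs_of_pos h0, abs_of_nonneg (by positivity)]
  refine mul_le_mul_of_nonneg_right ?_ h0.le
  have : (κ + 1) / (S + t) ≤ (κ + 1) / S :=
    div_le_div_of_nonneg_left (by linarith) hS (by linarith)
  linarith

theorem psi_nonneg {k : ℕ} {K S : ℝ} (hK : 0 < K) (hS : 0 < S) (x : E k) : 0 ≤ psi K S x := by
  rw [psi]; positivity

theorem psi_le_one {k : ℕ} {K S : ℝ} (hK : 0 < K) (hS : 0 < S) (x : E k) : psi K S x ≤ 1 := by
  rw [psi, div_le_one (by positivity)]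
  nlinarith [sq_nonneg ‖x‖]

/-- The derivative of `z ↦ ‖z‖²`. -/
theorem line_norm_sq {m : ℕ} (z v : E m) :
    HasDerivAt (fun t : ℝ => ‖z + t • v‖ ^ 2) (2 * ⟪z, v⟫) 0 := by
  have h1 : HasDerivAt (fun t : ℝ => z + t • v) v 0 := by
    simpa using ((hasDerivAt_id (0 : ℝ)).smul_const v).const_add z
  have h2 := h1.norm_sq
  simpa using h2

theorem line_comp {m : ℕ} (φ : ℝ → ℝ) (φ' S : ℝ) (z v : E m)
    (h : HasDerivAt φ φ' (S + ‖z‖ ^ 2)) :
    HasLineDerivAt ℝ (fun z : E m => φ (S + ‖z‖ ^ 2)) (φ' * (2 * ⟪z, v⟫)) z v := by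
  have h1 : HasDerivAt (fun t : ℝ => S + ‖z + t • v‖ ^ 2) (2 * ⟪z, v⟫) 0 :=
    (line_norm_sq z v).const_add S
  have h2 : HasDerivAt φ φ' ((fun t : ℝ => S + ‖z + t • v‖ ^ 2) 0) := by simpa using h
  exact h2.comp (0 : ℝ) h1

/-- The derivative of `ψ` along a line. -/
noncomputable def gd (K S : ℝ) {m k : ℕ} (R : E m →L[ℝ] E k) (v : E m) (x : E k) : ℝ :=
  2 * K * S * ⟪x, R v⟫ / (K * S + ‖x‖ ^ 2) ^ 2

theorem line_aff {m k : ℕ} (R : E m →L[ℝ] E k) (a : E k) (z v : E m) :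
    HasDerivAt (fun t : ℝ => a - R (z + t • v)) (-(R v)) 0 := by
  have h1 : HasDerivAt (fun t : ℝ => (a - R z) - t • R v) (-(R v)) 0 := by
    simpa using ((hasDerivAt_id (0 : ℝ)).smul_const (R v)).const_sub (a - R z)
  refine h1.congr_of_eventuallyEq (Eventually.of_forall fun t => ?_)
  simp only [map_add, map_smul]
  abel

theorem line_psi {m k : ℕ} {K S : ℝ} (hK : 0 < K) (hS : 0 < S) (R : E m →L[ℝ] E k) (a : E k)
    (z v : E m) :
    HasLineDerivAt ℝ (fun z : E m => psi K S (a - R z)) (gd K S R v (a - R z)) z v := by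
  have hd : HasDerivAt (fun t : ℝ => K * S + ‖a - R (z + t • v)‖ ^ 2)
      (2 * ⟪a - R z, -(R v)⟫) 0 := by
    have h2 := (line_aff R a z v).norm_sq.const_add (K * S)
    simpa using h2
  have hne : K * S + ‖a - R (z + (0 : ℝ) • v)‖ ^ 2 ≠ 0 := by positivity
  have h3 := (hasDerivAt_const (0 : ℝ) (K * S)).div hd hne
  refine HasDerivAt.congr_deriv (f := fun t : ℝ => psi K S (a - R (z + t • v))) h3 ?_
  simp only [zero_smul, add_zero, zero_mul, zero_sub, inner_neg_right, gd]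
  congr 1
  ring

theorem line_gd {m k : ℕ} {K S : ℝ} (hK : 0 < K) (hS : 0 < S) (R : E m →L[ℝ] E k) (a : E k)
    (z v : E m) :
    HasLineDerivAt ℝ (fun z : E m => gd K S R v (a - R z))
      (K * S * (-2 * ‖R v‖ ^ 2 / (K * S + ‖a - R z‖ ^ 2) ^ 2 +
        8 * ⟪a - R z, R v⟫ ^ 2 / (K * S + ‖a - R z‖ ^ 2) ^ 3)) z v := by
  have hd : HasDerivAt (fun t : ℝ => K * S + ‖a - R (z + t • v)‖ ^ 2)
      (2 * ⟪a - R z, -(R v)⟫) 0 := by
    have h2 := (line_aff R a z v).norm_sq.const_add (K * S)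
    simpa using h2
  have hn : HasDerivAt (fun t : ℝ => 2 * K * S * ⟪a - R (z + t • v), R v⟫)
      (2 * K * S * ⟪-(R v), R v⟫) 0 := by
    have h1 := ((line_aff R a z v).inner ℝ (hasDerivAt_const (0 : ℝ) (R v))).const_mul (2 * K * S)
    simpa using h1
  have hne : (K * S + ‖a - R (z + (0 : ℝ) • v)‖ ^ 2) ^ 2 ≠ 0 := by positivity
  have h3 := hn.div (hd.pow 2) hne
  refine HasDerivAt.congr_deriv (f := fun t : ℝ => gd K S R v (a - R (z + t • v))) h3 ?_
  have hp : 0 < K * S + ‖a - R z‖ ^ 2 := by positivity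
  simp only [Pi.pow_apply, zero_smul, add_zero, inner_neg_right, inner_neg_left,
    real_inner_self_eq_norm_sq]
  field_simp
  ring

end Pool.Agent.L7h37.PDH
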