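import Pool.Agent.L7h37.PDH.Ibp1a

set_option autoImplicit false

/-! Project PD (helper38): `S_IBP`. -/

namespace Pool.Agent.L7h37.PDH

open Pool.Agent.L7h38.PD MeasureTheory Set Filter Topology
open scoped RealInnerProductSpace

variable {m k : ℕ}

/-- The open set. -/
abbrev UU (m : ℕ) : Set (ℝ × E m) := Ioi (0 : ℝ) ×ˢ (univ : Set (E m))

theorem mu2_eq : mu2 m = (volume : Measure (ℝ × E m)).restrict (UU m) := by
  rw [mu2, Measure.volume_eq_prod, ← Measure.prod_restrict, Measure.restrict_univ]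

theorem int_of_bound (F D : ℝ × E m → ℝ) (hF : ContinuousOn F (UU m)) (hD : Integrable D (mu2 m))
    (h : ∀ (S : ℝ) (z : E m), 0 < S → |F (S, z)| ≤ D (S, z)) : Integrable F (mu2 m) := by
  have hU : MeasurableSet (UU m) := measurableSet_Ioi.prod MeasurableSet.univ
  refine hD.mono' ?_ ?_
  · rw [mu2_eq]
    exact hF.aestronglyMeasurable hU
  · rw [mu2_eq]
    refine (ae_restrict_iff' hU).2 (Eventually.of_forall fun q hq => ?_)
    rw [Real.norm_eq_abs]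
    exact h q.1 q.2 hq.1

theorem con_pow (s : ℝ) : ContinuousOn (fun q : ℝ × E m => q.1 ^ s) (UU m) := by
  intro q hq
  have h1 : ContinuousAt (fun S : ℝ => S ^ s) q.1 :=
    Real.continuousAt_rpow_const _ _ (Or.inl (mem_Ioi.1 hq.1).ne')
  exact (ContinuousAt.comp (f := fun q : ℝ × E m => q.1) h1 continuousAt_fst).continuousWithinAt

theorem con_comp (φ : ℝ → ℝ) (h : ∀ T : ℝ, 0 < T → ContinuousAt φ T) :
    ContinuousOn (fun q : ℝ × E m => φ (q.1 + ‖q.2‖ ^ 2)) (UU m) := by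
  intro q hq
  have h0 : 0 < q.1 := hq.1
  have h1 : ContinuousAt φ ((fun q : ℝ × E m => q.1 + ‖q.2‖ ^ 2) q) := h _ (by positivity)
  exact (ContinuousAt.comp (f := fun q : ℝ × E m => q.1 + ‖q.2‖ ^ 2) h1
    (by fun_prop)).continuousWithinAt

theorem pos_den {K : ℝ} (hK : 0 < K) (R : E m →L[ℝ] E k) (a : E k) (q : ℝ × E m)
    (hq : q ∈ UU m) : 0 < K * q.1 + ‖a - R q.2‖ ^ 2 := by
  have h0 : 0 < q.1 := hq.1
  positivity

theorem con_psi {K : ℝ} (hK : 0 < K) (R : E m →L[ℝ] E k) (a : E k) :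
    ContinuousOn (fun q : ℝ × E m => psi K q.1 (a - R q.2)) (UU m) := by
  refine ContinuousOn.div (by fun_prop) (by fun_prop) fun q hq => ?_
  exact (pos_den hK R a q hq).ne'

theorem con_dS {K : ℝ} (hK : 0 < K) (R : E m →L[ℝ] E k) (a : E k) :
    ContinuousOn (fun q : ℝ × E m => dS K q.1 (a - R q.2)) (UU m) := by
  refine ContinuousOn.div (by fun_prop) (by fun_prop) fun q hq => ?_
  exact (pow_pos (pos_den hK R a q hq) 2).ne'

theorem con_lap {K : ℝ} (hK : 0 < K) (R : E m →L[ℝ] E k) (a : E k) :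
    ContinuousOn (fun q : ℝ × E m => lap K q.1 R (a - R q.2)) (UU m) := by
  have h1 : Continuous (fun q : ℝ × E m => rx R (a - R q.2)) := by
    unfold rx
    fun_prop
  refine ContinuousOn.mul (by fun_prop) (ContinuousOn.add (ContinuousOn.div (by fun_prop)
    (by fun_prop) fun q hq => ?_) (ContinuousOn.div (continuous_const.mul h1).continuousOn
    (by fun_prop) fun q hq => ?_))
  · exact (pow_pos (pos_den hK R a q hq) 2).ne'
  · exact (pow_pos (pos_den hK R a q hq) 3).ne'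

theorem abs_lap_le {K S : ℝ} (hK : 0 < K) (hS : 0 < S) (R : E m →L[ℝ] E k) (x : E k) :
    S * |lap K S R x| ≤ 10 * tau R / K := by
  set A := K * S with hA
  have hA0 : 0 < A := mul_pos hK hS
  have hX : 0 < A + ‖x‖ ^ 2 := by positivity
  have hτ : 0 ≤ tau R := Finset.sum_nonneg fun i _ => sq_nonneg _
  have hr : 0 ≤ rx R x := Finset.sum_nonneg fun i _ => sq_nonneg _
  have h1 : rx R x ≤ ‖x‖ ^ 2 * tau R := by
    rw [rx, tau, Finset.mul_sum]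
    refine Finset.sum_le_sum fun i _ => ?_
    have := pow_le_pow_left₀ (abs_nonneg _) (abs_real_inner_le_norm x
      (R (EuclideanSpace.single i (1 : ℝ)))) 2
    rwa [sq_abs, mul_pow] at this
  have h2 : A / (A + ‖x‖ ^ 2) ≤ 1 := by
    rw [div_le_one hX]; linarith [sq_nonneg ‖x‖]
  have h3 : ‖x‖ ^ 2 / (A + ‖x‖ ^ 2) ≤ 1 := by
    rw [div_le_one hX]; linarith
  have h4 : 1 / (A + ‖x‖ ^ 2) ≤ 1 / A := one_div_le_one_div_of_le hA0 (by linarith [sq_nonneg ‖x‖])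
  have e1 : lap K S R x = -(2 * tau R * (A / (A + ‖x‖ ^ 2) * (1 / (A + ‖x‖ ^ 2)))) +
      8 * (A / (A + ‖x‖ ^ 2) * (rx R x / (A + ‖x‖ ^ 2) * (1 / (A + ‖x‖ ^ 2)))) := by
    rw [lap, ← hA]
    field_simp
  have h5 : A / (A + ‖x‖ ^ 2) * (1 / (A + ‖x‖ ^ 2)) ≤ 1 * (1 / A) :=
    mul_le_mul h2 h4 (by positivity) (by norm_num)
  have h6 : rx R x / (A + ‖x‖ ^ 2) ≤ tau R := by
    calc rx R x / (A + ‖x‖ ^ 2) ≤ ‖x‖ ^ 2 * tau R / (A + ‖x‖ ^ 2) :=
          div_le_div_of_nonneg_right h1 hX.le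
      _ = ‖x‖ ^ 2 / (A + ‖x‖ ^ 2) * tau R := by ring
      _ ≤ 1 * tau R := mul_le_mul_of_nonneg_right h3 hτ
      _ = _ := one_mul _
  have h7 : A / (A + ‖x‖ ^ 2) * (rx R x / (A + ‖x‖ ^ 2) * (1 / (A + ‖x‖ ^ 2))) ≤
      1 * (tau R * (1 / A)) :=
    mul_le_mul h2 (mul_le_mul h6 h4 (by positivity) (by positivity)) (by positivity)
      (by norm_num)
  have h8 : 0 ≤ A / (A + ‖x‖ ^ 2) * (1 / (A + ‖x‖ ^ 2)) := by positivity
  have h9 : 0 ≤ A / (A + ‖x‖ ^ 2) * (rx R x / (A + ‖x‖ ^ 2) * (1 / (A + ‖x‖ ^ 2))) := by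
    positivity
  have h10 : |lap K S R x| ≤ 10 * tau R / A := by
    rw [e1]
    refine (abs_add_le _ _).trans ?_
    rw [abs_neg, abs_of_nonneg (by positivity), abs_of_nonneg (by positivity)]
    calc _ ≤ 2 * tau R * (1 * (1 / A)) + 8 * (1 * (tau R * (1 / A))) :=
          add_le_add (mul_le_mul_of_nonneg_left h5 (by positivity))
            (mul_le_mul_of_nonneg_left h7 (by norm_num))
      _ = _ := by ring
  calc S * |lap K S R x| ≤ S * (10 * tau R / A) := mul_le_mul_of_nonneg_left h10 hS.le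
    _ = 10 * tau R / K := by
        rw [hA]
        field_simp

theorem dS_bounds' {K S : ℝ} (hK : 0 < K) (hS : 0 < S) (x : E k) :
    0 ≤ dS K S x ∧ dS K S x ≤ 1 := by
  rw [dS]
  refine ⟨by positivity, ?_⟩
  rw [div_le_one (by positivity)]
  have h1 : 0 < K * S := by positivity
  nlinarith [sq_nonneg (K * S), sq_nonneg ‖x‖, mul_nonneg h1.le (sq_nonneg ‖x‖), sq_nonneg (‖x‖ ^ 2)]

theorem s_IBP (hI : S_INT2) (hOM : S_OM) (hA1 : S_IBP1a) (hB1 : S_IBP1b) (hA2 : S_IBP2) : S_IBP := by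
  intro m k b κ K hb hκ hκb hK R a
  obtain ⟨hO, -, hOη⟩ := hOM κ hκ
  obtain ⟨η, hη1, hη2⟩ := exists_between hκb
  obtain ⟨C, hC0, hC⟩ := hOη η hη1
  -- the dominating functions
  have D1 := hI m b κ (1 / 2) hb hκ hκb (by norm_num) 1
  have D2 := hI m b η (1 / 4) hb (hκ.trans hη1.le) hη2 (by norm_num) 0
  set d1 : ℝ × E m → ℝ := fun q => q.1 ^ (b - 1) * (q.1 + ‖q.2‖ ^ 2) ^ (-κ) *
    Real.exp (-(1 / 2) * (q.1 + ‖q.2‖ ^ 2)) * (1 + q.1 + ‖q.2‖ ^ 2) ^ 1 with hd1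
  set d2 : ℝ × E m → ℝ := fun q => q.1 ^ (b - 1) * (q.1 + ‖q.2‖ ^ 2) ^ (-η) *
    Real.exp (-(1 / 4) * (q.1 + ‖q.2‖ ^ 2)) * (1 + q.1 + ‖q.2‖ ^ 2) ^ 0 with hd2
  -- elementary bounds
  have hSb : ∀ S : ℝ, 0 < S → S ^ b = S ^ (b - 1) * S := fun S hS => by
    rw [← Real.rpow_add_one hS.ne', sub_add_cancel]
  have hT0 : ∀ (S : ℝ) (z : E m), 0 < S → 0 < S + ‖z‖ ^ 2 := fun S z hS => by positivity
  have hvT : ∀ (S : ℝ) (z : E m), 0 < S →
      (S + ‖z‖ ^ 2) * vpi κ (S + ‖z‖ ^ 2) =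
        (S + ‖z‖ ^ 2) ^ (-κ) * Real.exp (-(1 / 2) * (S + ‖z‖ ^ 2)) := by
    intro S z hS
    have hT := hT0 S z hS
    rw [vpi, Real.rpow_sub_one hT.ne']
    have : Real.exp (-(S + ‖z‖ ^ 2) / 2) = Real.exp (-(1 / 2) * (S + ‖z‖ ^ 2)) := by
      congr 1; ring
    rw [this]
    field_simp
  -- bound A: u * ϖ ≤ ... for 0 ≤ u ≤ T
  have hA : ∀ (S : ℝ) (z : E m) (u : ℝ), 0 < S → 0 ≤ u → u ≤ S + ‖z‖ ^ 2 →
      S ^ (b - 1) * (u * vpi κ (S + ‖z‖ ^ 2)) ≤ d1 (S, z) := by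
    intro S z u hS hu hu'
    have hT := hT0 S z hS
    have hv := vpi_pos κ hT
    have hp : 0 < S ^ (b - 1) := by positivity
    calc S ^ (b - 1) * (u * vpi κ (S + ‖z‖ ^ 2)) ≤
          S ^ (b - 1) * ((S + ‖z‖ ^ 2) * vpi κ (S + ‖z‖ ^ 2)) :=
          mul_le_mul_of_nonneg_left (mul_le_mul_of_nonneg_right hu' hv.le) hp.le
      _ = S ^ (b - 1) * (S + ‖z‖ ^ 2) ^ (-κ) * Real.exp (-(1 / 2) * (S + ‖z‖ ^ 2)) * 1 := by
          rw [hvT S z hS]; ring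
      _ ≤ d1 (S, z) := by
          simp only [hd1, pow_one]
          refine mul_le_mul_of_nonneg_left ?_ (by positivity)
          linarith
  -- bound B: S * ‖z‖² * |ϖ'|
  have hB : ∀ (S : ℝ) (z : E m), 0 < S →
      S ^ (b - 1) * (S * ‖z‖ ^ 2 * |dvpi κ (S + ‖z‖ ^ 2)|) ≤ (κ + 1) * d1 (S, z) := by
    intro S z hS
    have hT := hT0 S z hS
    have hv := vpi_pos κ hT
    have hp : 0 < S ^ (b - 1) := by positivity
    have e1 : |dvpi κ (S + ‖z‖ ^ 2)| =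
        ((κ + 1) / (S + ‖z‖ ^ 2) + 1 / 2) * vpi κ (S + ‖z‖ ^ 2) := by
      rw [dvpi, abs_mul, abs_neg, abs_of_pos hv, abs_of_nonneg (by positivity)]
    have h1 : S * ‖z‖ ^ 2 * |dvpi κ (S + ‖z‖ ^ 2)| ≤
        (κ + 1) * ((S + ‖z‖ ^ 2) * vpi κ (S + ‖z‖ ^ 2) * (1 + S + ‖z‖ ^ 2)) := by
      rw [e1]
      have h2 : S * ‖z‖ ^ 2 ≤ (S + ‖z‖ ^ 2) * (S + ‖z‖ ^ 2) :=
        mul_le_mul (by linarith [sq_nonneg ‖z‖]) (by linarith) (sq_nonneg _) hT.le
      calc S * ‖z‖ ^ 2 * (((κ + 1) / (S + ‖z‖ ^ 2) + 1 / 2) * vpi κ (S + ‖z‖ ^ 2))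
          ≤ (S + ‖z‖ ^ 2) * (S + ‖z‖ ^ 2) *
            (((κ + 1) / (S + ‖z‖ ^ 2) + 1 / 2) * vpi κ (S + ‖z‖ ^ 2)) :=
            mul_le_mul_of_nonneg_right h2 (by positivity)
        _ = (S + ‖z‖ ^ 2) * vpi κ (S + ‖z‖ ^ 2) * ((κ + 1) + (S + ‖z‖ ^ 2) / 2) := by
            field_simp
        _ ≤ (S + ‖z‖ ^ 2) * vpi κ (S + ‖z‖ ^ 2) * ((κ + 1) * (1 + S + ‖z‖ ^ 2)) := by
            refine mul_le_mul_of_nonneg_left ?_ (by positivity)
            nlinarith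
        _ = _ := by ring
    calc _ ≤ S ^ (b - 1) * ((κ + 1) *
          ((S + ‖z‖ ^ 2) * vpi κ (S + ‖z‖ ^ 2) * (1 + S + ‖z‖ ^ 2))) :=
          mul_le_mul_of_nonneg_left h1 hp.le
      _ = (κ + 1) * d1 (S, z) := by
          rw [hvT S z hS]
          simp only [hd1, pow_one]
          ring
  have hψ : ∀ (S : ℝ) (x : E k), 0 < S → |psi K S x| ≤ 1 := fun S x hS => by
    rw [abs_of_nonneg (psi_nonneg hK hS _)]
    exact psi_le_one hK hS _
  -- the four functions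
  let P1 : ℝ × E m → ℝ := fun q => q.1 ^ b * ((((m : ℝ) / 2) * vpi κ (q.1 + ‖q.2‖ ^ 2) +
    ‖q.2‖ ^ 2 * dvpi κ (q.1 + ‖q.2‖ ^ 2)) * psi K q.1 (a - R q.2))
  let P2 : ℝ × E m → ℝ := fun q => ‖q.2‖ ^ 2 * ((b * q.1 ^ (b - 1) * vpi κ (q.1 + ‖q.2‖ ^ 2) +
    q.1 ^ b * dvpi κ (q.1 + ‖q.2‖ ^ 2)) * psi K q.1 (a - R q.2))
  let P3 : ℝ × E m → ℝ := fun q => q.1 ^ b * (Om κ (q.1 + ‖q.2‖ ^ 2) * lap K q.1 R (a - R q.2))
  let P4 : ℝ × E m → ℝ := fun q => ‖q.2‖ ^ 2 * (q.1 ^ (b - 1) * vpi κ (q.1 + ‖q.2‖ ^ 2) *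
    dS K q.1 (a - R q.2))
  have cv := con_comp (m := m) (vpi κ) (cont_vpi κ)
  have cv' := con_comp (m := m) (dvpi κ) (cont_dvpi κ)
  have cO := con_comp (m := m) (Om κ) (fun T hT => (hO T hT).2.2.2.1.continuousAt)
  have cψ := con_psi hK R a
  have cS := con_dS hK R a
  have cl := con_lap hK R a
  have cn : ContinuousOn (fun q : ℝ × E m => ‖q.2‖ ^ 2) (UU m) := by fun_prop
  have cb := con_pow (m := m) b
  have cb1 := con_pow (m := m) (b - 1)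
  have hd1' : ∀ S (z : E m), 0 < S → 0 ≤ d1 (S, z) := fun S z hS => by
    have := hT0 S z hS
    simp only [hd1]
    positivity
  have J1 : Integrable P1 (mu2 m) := by
    refine int_of_bound P1 _ (cb.mul (((continuousOn_const.mul cv).add (cn.mul cv')).mul cψ))
      (D1.const_mul ((m : ℝ) / 2 + (κ + 1))) fun S z hS => ?_
    have hv := vpi_pos κ (hT0 S z hS)
    have hp : 0 < S ^ b := by positivity
    simp only [P1]
    rw [abs_mul, abs_of_pos hp, abs_mul]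
    have h1 : |((m : ℝ) / 2) * vpi κ (S + ‖z‖ ^ 2) + ‖z‖ ^ 2 * dvpi κ (S + ‖z‖ ^ 2)| ≤
        (m : ℝ) / 2 * vpi κ (S + ‖z‖ ^ 2) + ‖z‖ ^ 2 * |dvpi κ (S + ‖z‖ ^ 2)| := by
      refine (abs_add_le _ _).trans (le_of_eq ?_)
      rw [abs_of_nonneg (by positivity), abs_mul, abs_of_nonneg (sq_nonneg ‖z‖)]
    calc _ ≤ S ^ b * (((m : ℝ) / 2 * vpi κ (S + ‖z‖ ^ 2) + ‖z‖ ^ 2 * |dvpi κ (S + ‖z‖ ^ 2)|) * 1) :=
          mul_le_mul_of_nonneg_left (mul_le_mul h1 (hψ S _ hS) (abs_nonneg _) (by positivity)) hp.le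
      _ = (m : ℝ) / 2 * (S ^ (b - 1) * (S * vpi κ (S + ‖z‖ ^ 2))) +
          S ^ (b - 1) * (S * ‖z‖ ^ 2 * |dvpi κ (S + ‖z‖ ^ 2)|) := by rw [hSb S hS]; ring
      _ ≤ (m : ℝ) / 2 * d1 (S, z) + (κ + 1) * d1 (S, z) :=
          add_le_add (mul_le_mul_of_nonneg_left (hA S z S hS hS.le (by linarith [sq_nonneg ‖z‖]))
            (by positivity)) (hB S z hS)
      _ = _ := by ring
  have J2 : Integrable P2 (mu2 m) := by
    refine int_of_bound P2 _ (cn.mul ((((continuousOn_const.mul cb1).mul cv).add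
      (cb.mul cv')).mul cψ)) (D1.const_mul (b + (κ + 1))) fun S z hS => ?_
    have hv := vpi_pos κ (hT0 S z hS)
    have hp : 0 < S ^ b := by positivity
    have hp1 : 0 < S ^ (b - 1) := by positivity
    simp only [P2]
    rw [abs_mul, abs_of_nonneg (sq_nonneg ‖z‖), abs_mul]
    have h1 : |b * S ^ (b - 1) * vpi κ (S + ‖z‖ ^ 2) + S ^ b * dvpi κ (S + ‖z‖ ^ 2)| ≤
        b * S ^ (b - 1) * vpi κ (S + ‖z‖ ^ 2) + S ^ b * |dvpi κ (S + ‖z‖ ^ 2)| := by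
      refine (abs_add_le _ _).trans (le_of_eq ?_)
      rw [abs_of_nonneg (by positivity), abs_mul, abs_of_pos hp]
    calc _ ≤ ‖z‖ ^ 2 * ((b * S ^ (b - 1) * vpi κ (S + ‖z‖ ^ 2) +
            S ^ b * |dvpi κ (S + ‖z‖ ^ 2)|) * 1) :=
          mul_le_mul_of_nonneg_left (mul_le_mul h1 (hψ S _ hS) (abs_nonneg _) (by positivity))
            (sq_nonneg _)
      _ = b * (S ^ (b - 1) * (‖z‖ ^ 2 * vpi κ (S + ‖z‖ ^ 2))) +
          S ^ (b - 1) * (S * ‖z‖ ^ 2 * |dvpi κ (S + ‖z‖ ^ 2)|) := by rw [hSb S hS]; ring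
      _ ≤ b * d1 (S, z) + (κ + 1) * d1 (S, z) :=
          add_le_add (mul_le_mul_of_nonneg_left (hA S z _ hS (sq_nonneg _) (by linarith)) hb.le)
            (hB S z hS)
      _ = _ := by ring
  have J3 : Integrable P3 (mu2 m) := by
    refine int_of_bound P3 _ (cb.mul (cO.mul cl)) (D2.const_mul (10 * tau R / K * C))
      fun S z hS => ?_
    have hT := hT0 S z hS
    have hp : 0 < S ^ b := by positivity
    have hp1 : 0 < S ^ (b - 1) := by positivity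
    have hOp := (hO _ hT).2.2.2.2.1
    have hτ : 0 ≤ tau R := Finset.sum_nonneg fun i _ => sq_nonneg _
    simp only [P3]
    rw [abs_mul, abs_of_pos hp, abs_mul, abs_of_pos hOp]
    calc _ = S ^ (b - 1) * (Om κ (S + ‖z‖ ^ 2) * (S * |lap K S R (a - R z)|)) := by
          rw [hSb S hS]; ring
      _ ≤ S ^ (b - 1) * ((C * ((S + ‖z‖ ^ 2) ^ (-η) * Real.exp (-(1 / 4) * (S + ‖z‖ ^ 2)))) *
            (10 * tau R / K)) := by
          refine mul_le_mul_of_nonneg_left (mul_le_mul (hC _ hT) (abs_lap_le hK hS R _)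
            (by positivity) (by positivity)) hp1.le
      _ = _ := by
          simp only [hd2, pow_zero]
          ring
  have J4 : Integrable P4 (mu2 m) := by
    refine int_of_bound P4 _ (cn.mul ((cb1.mul cv).mul cS)) D1 fun S z hS => ?_
    have hv := vpi_pos κ (hT0 S z hS)
    have hp1 : 0 < S ^ (b - 1) := by positivity
    obtain ⟨s0, s1⟩ := dS_bounds' hK hS (a - R z)
    simp only [P4]
    rw [abs_of_nonneg (by positivity)]
    calc ‖z‖ ^ 2 * (S ^ (b - 1) * vpi κ (S + ‖z‖ ^ 2) * dS K S (a - R z))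
        ≤ ‖z‖ ^ 2 * (S ^ (b - 1) * vpi κ (S + ‖z‖ ^ 2) * 1) :=
          mul_le_mul_of_nonneg_left (mul_le_mul_of_nonneg_left s1 (by positivity)) (sq_nonneg _)
      _ = S ^ (b - 1) * (‖z‖ ^ 2 * vpi κ (S + ‖z‖ ^ 2)) := by ring
      _ ≤ d1 (S, z) := hA S z _ hS (sq_nonneg _) (by linarith)
  -- the two identities
  have E1 : ∫ q, P1 q ∂(mu2 m) = ∫ q, (-(1 / 4)) * P3 q ∂(mu2 m) := by
    rw [mu2, integral_prod _ J1, integral_prod _ (J3.const_mul (-(1 / 4)))]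
    refine setIntegral_congr_fun measurableSet_Ioi fun S hS => ?_
    have hS := mem_Ioi.1 hS
    simp only [P1, P3]
    rw [integral_const_mul, integral_const_mul, integral_const_mul, hA1 m k κ K S hκ hK hS R a,
      hA2 m k κ K S hκ hK hS R a]
    ring
  have E2 : ∫ q, P2 q ∂(mu2 m) = ∫ q, (-1) * P4 q ∂(mu2 m) := by
    rw [mu2, integral_prod_symm _ J2, integral_prod_symm _ (J4.const_mul (-1))]
    refine integral_congr_ae (Eventually.of_forall fun z => ?_)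
    simp only [P2, P4]
    rw [integral_const_mul, integral_const_mul, integral_const_mul]
    by_cases hz : z = 0
    · rw [hz, norm_zero]
      ring
    · have hr : 0 < ‖z‖ ^ 2 := by
        have := norm_pos_iff.2 hz
        positivity
      rw [hB1 k b κ K (‖z‖ ^ 2) hb hκ hK hr (a - R z)]
      ring
  have hU : MeasurableSet (UU m) := measurableSet_Ioi.prod MeasurableSet.univ
  calc ∫ q : ℝ × E m, q.1 ^ (b - 1) * vpi κ (q.1 + ‖q.2‖ ^ 2) *
      (((m : ℝ) / 2) * q.1 - b * ‖q.2‖ ^ 2) * psi K q.1 (a - R q.2) ∂(mu2 m)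
      = ∫ q, (P1 q - P2 q) ∂(mu2 m) := by
        rw [mu2_eq]
        refine setIntegral_congr_fun hU fun q hq => ?_
        simp only [P1, P2, hSb q.1 hq.1]
        ring
    _ = ∫ q, ((-(1 / 4)) * P3 q - (-1) * P4 q) ∂(mu2 m) := by
        rw [integral_sub J1 J2, E1, E2, integral_sub (J3.const_mul _) (J4.const_mul _)]
    _ = _ := by
        rw [mu2_eq]
        refine setIntegral_congr_fun hU fun q hq => ?_
        simp only [P3, P4, hSb q.1 hq.1]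
        ring

end Pool.Agent.L7h37.PDH
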