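import Pool.Agent.L7h37.PDH.Base

set_option autoImplicit false

/-! Project PD (helper38): `S_IBP1a`, `S_IBP2`. -/

namespace Pool.Agent.L7h37.PDH

open Pool.Agent.L7h38.PD MeasureTheory Set Filter Topology
open scoped RealInnerProductSpace

theorem cont_comp {m : ℕ} (φ : ℝ → ℝ) (h : ∀ T : ℝ, 0 < T → ContinuousAt φ T) {S : ℝ}
    (hS : 0 < S) : Continuous (fun z : E m => φ (S + ‖z‖ ^ 2)) := by
  rw [continuous_iff_continuousAt]
  intro z
  have h1 : ContinuousAt φ ((fun z : E m => S + ‖z‖ ^ 2) z) := h _ (by positivity)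
  exact ContinuousAt.comp (f := fun z : E m => S + ‖z‖ ^ 2) h1 (by fun_prop)

theorem cont_vpi (κ T : ℝ) (hT : 0 < T) : ContinuousAt (vpi κ) T :=
  (hasDerivAt_vpi κ hT).continuousAt

theorem cont_dvpi (κ T : ℝ) (hT : 0 < T) : ContinuousAt (dvpi κ) T := by
  refine ContinuousAt.mul (ContinuousAt.neg (ContinuousAt.add (ContinuousAt.div continuousAt_const
    continuousAt_id hT.ne') continuousAt_const)) (cont_vpi κ T hT)

variable {m k : ℕ}

theorem cont_psi {K S : ℝ} (hK : 0 < K) (hS : 0 < S) (R : E m →L[ℝ] E k) (a : E k) :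
    Continuous (fun z : E m => psi K S (a - R z)) := by
  refine Continuous.div (by fun_prop) (by fun_prop) fun z => ?_
  positivity

theorem cont_gd {K S : ℝ} (hK : 0 < K) (hS : 0 < S) (R : E m →L[ℝ] E k) (a : E k) (v : E m) :
    Continuous (fun z : E m => gd K S R v (a - R z)) := by
  refine Continuous.div (by fun_prop) (by fun_prop) fun z => ?_
  positivity

theorem abs_gd_le {K S : ℝ} (hK : 0 < K) (hS : 0 < S) (R : E m →L[ℝ] E k) (v : E m) (x : E k) :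
    |gd K S R v x| ≤ 2 * (1 + 1 / (K * S)) * ‖R v‖ := by
  set A := K * S with hA
  have hA0 : 0 < A := mul_pos hK hS
  have h1 : |⟪x, R v⟫| ≤ ‖x‖ * ‖R v‖ := abs_real_inner_le_norm _ _
  have hX : 0 < A + ‖x‖ ^ 2 := by positivity
  have e : gd K S R v x = 2 * (A / (A + ‖x‖ ^ 2)) * (⟪x, R v⟫ / (A + ‖x‖ ^ 2)) := by
    rw [gd, hA]
    field_simp
  have h2 : A / (A + ‖x‖ ^ 2) ≤ 1 := by
    rw [div_le_one hX]
    linarith [sq_nonneg ‖x‖]
  have h3 : ‖x‖ / (A + ‖x‖ ^ 2) ≤ 1 + 1 / A := by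
    rw [div_le_iff₀ hX]
    have h4 : ‖x‖ ≤ 1 + ‖x‖ ^ 2 := by nlinarith [sq_nonneg (‖x‖ - 1), norm_nonneg x]
    have h5 : (1 + 1 / A) * (A + ‖x‖ ^ 2) = A + ‖x‖ ^ 2 + 1 + ‖x‖ ^ 2 / A := by
      field_simp
      ring
    rw [h5]
    have : 0 ≤ ‖x‖ ^ 2 / A := by positivity
    linarith
  rw [e, abs_mul, abs_mul, abs_two, abs_div, abs_of_pos hX, abs_div, abs_of_pos hX,
    abs_of_pos hA0]
  calc 2 * (A / (A + ‖x‖ ^ 2)) * (|⟪x, R v⟫| / (A + ‖x‖ ^ 2))
      ≤ 2 * 1 * ((1 + 1 / A) * ‖R v‖) := by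
        refine mul_le_mul (by linarith) ?_ (by positivity) (by positivity)
        calc |⟪x, R v⟫| / (A + ‖x‖ ^ 2) ≤ ‖x‖ * ‖R v‖ / (A + ‖x‖ ^ 2) :=
              div_le_div_of_nonneg_right h1 hX.le
          _ = ‖x‖ / (A + ‖x‖ ^ 2) * ‖R v‖ := by ring
          _ ≤ (1 + 1 / A) * ‖R v‖ := mul_le_mul_of_nonneg_right h3 (norm_nonneg _)
    _ = 2 * (1 + 1 / A) * ‖R v‖ := by ring

/-- The basis vectors. -/
noncomputable abbrev eb (m : ℕ) (i : Fin m) : E m := EuclideanSpace.single i (1 : ℝ)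

theorem norm_eb (i : Fin m) : ‖eb m i‖ = 1 := by simp [eb]

theorem inner_eb (z : E m) (i : Fin m) : ⟪z, eb m i⟫ = z i := by
  rw [eb, EuclideanSpace.inner_single_right]
  simp

theorem abs_inner_eb (z : E m) (i : Fin m) : |⟪z, eb m i⟫| ≤ ‖z‖ := by
  have := abs_real_inner_le_norm z (eb m i)
  rwa [norm_eb, mul_one] at this

theorem sum_sq (z : E m) : ∑ i : Fin m, ⟪z, eb m i⟫ ^ 2 = ‖z‖ ^ 2 := by
  rw [EuclideanSpace.real_norm_sq_eq]
  exact Finset.sum_congr rfl fun i _ => by rw [inner_eb]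

theorem sum_single (z : E m) : ∑ i : Fin m, ⟪z, eb m i⟫ • eb m i = z := by
  have := (EuclideanSpace.basisFun (Fin m) ℝ).sum_repr z
  conv_rhs => rw [← this]
  refine Finset.sum_congr rfl fun i _ => ?_
  rw [inner_eb]
  simp [eb]

theorem sum_gd (K S : ℝ) (R : E m →L[ℝ] E k) (z : E m) (x : E k) :
    ∑ i : Fin m, ⟪z, eb m i⟫ * gd K S R (eb m i) x = dz K S R z x := by
  have h1 : R z = ∑ i : Fin m, ⟪z, eb m i⟫ • R (eb m i) := by
    conv_lhs => rw [← sum_single z]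
    rw [map_sum]
    exact Finset.sum_congr rfl fun i _ => map_smul _ _ _
  rw [dz, h1, inner_sum, Finset.mul_sum, Finset.sum_div]
  refine Finset.sum_congr rfl fun i _ => ?_
  rw [gd, inner_smul_right]
  ring

theorem line_inner (z v : E m) : HasLineDerivAt ℝ (fun z : E m => ⟪z, v⟫) (‖v‖ ^ 2) z v := by
  have h1 : HasDerivAt (fun t : ℝ => z + t • v) v 0 := by
    simpa using ((hasDerivAt_id (0 : ℝ)).smul_const v).const_add z
  have h2 := h1.inner ℝ (hasDerivAt_const (0 : ℝ) v)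
  simp only [inner_zero_right, zero_add, real_inner_self_eq_norm_sq] at h2
  exact h2

theorem le_quad (t : ℝ) : t ≤ 1 + t ^ 2 := by nlinarith [sq_nonneg (t - 1)]

theorem s_IBP1a : S_IBP1a := by
  intro m k κ K S hκ hK hS R a
  set c := S ^ (-κ - 1) with hc
  have hc0 : 0 < c := by rw [hc]; positivity
  set d := (κ + 1) / S + 1 / 2 with hd
  have hd0 : 0 ≤ d := by rw [hd]; positivity
  have hf : ∀ z : E m, vpi κ (S + ‖z‖ ^ 2) ≤ c * Real.exp (-‖z‖ ^ 2 / 2) := fun z =>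
    vpi_le κ hκ hS (sq_nonneg _)
  have hf0 : ∀ z : E m, 0 < vpi κ (S + ‖z‖ ^ 2) := fun z => vpi_pos κ (by positivity)
  have hf' : ∀ z : E m, |dvpi κ (S + ‖z‖ ^ 2)| ≤ d * (c * Real.exp (-‖z‖ ^ 2 / 2)) := fun z =>
    (abs_dvpi_le κ hκ hS (sq_nonneg _)).trans (mul_le_mul_of_nonneg_left (hf z) hd0)
  have hg : ∀ z : E m, |psi K S (a - R z)| ≤ 1 := fun z => by
    rw [abs_of_nonneg (psi_nonneg hK hS _)]
    exact psi_le_one hK hS _
  have cf := cont_comp (m := m) (vpi κ) (cont_vpi κ) hS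
  have cf' := cont_comp (m := m) (dvpi κ) (cont_dvpi κ) hS
  have cg := cont_psi hK hS R a
  set Ee : E m → ℝ := fun z => Real.exp (-‖z‖ ^ 2 / 2) with hEe
  have hE0 : ∀ z, 0 < Ee z := fun z => Real.exp_pos _
  -- the two sides are integrable
  have I1 : Integrable (fun z : E m => (((m : ℝ) / 2) * vpi κ (S + ‖z‖ ^ 2) +
      ‖z‖ ^ 2 * dvpi κ (S + ‖z‖ ^ 2)) * psi K S (a - R z)) := by
    refine integrable_of_gauss _ (by fun_prop) ((m : ℝ) / 2 * c + d * c) fun z => ?_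
    rw [abs_mul]
    have h1 : |((m : ℝ) / 2) * vpi κ (S + ‖z‖ ^ 2) + ‖z‖ ^ 2 * dvpi κ (S + ‖z‖ ^ 2)| ≤
        ((m : ℝ) / 2 * c + d * c) * ((1 + ‖z‖ ^ 2) * Ee z) := by
      refine (abs_add_le _ _).trans ?_
      rw [abs_of_nonneg (by have := (hf0 z).le; positivity), abs_mul, abs_of_nonneg (sq_nonneg ‖z‖)]
      have h2 : (m : ℝ) / 2 * vpi κ (S + ‖z‖ ^ 2) ≤ (m : ℝ) / 2 * c * ((1 + ‖z‖ ^ 2) * Ee z) := by
        calc (m : ℝ) / 2 * vpi κ (S + ‖z‖ ^ 2) ≤ (m : ℝ) / 2 * (c * Ee z) :=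
              mul_le_mul_of_nonneg_left (hf z) (by positivity)
          _ = (m : ℝ) / 2 * c * (1 * Ee z) := by ring
          _ ≤ (m : ℝ) / 2 * c * ((1 + ‖z‖ ^ 2) * Ee z) := by
              refine mul_le_mul_of_nonneg_left (mul_le_mul_of_nonneg_right ?_ (hE0 z).le)
                (by positivity)
              linarith [sq_nonneg ‖z‖]
      have h3 : ‖z‖ ^ 2 * |dvpi κ (S + ‖z‖ ^ 2)| ≤ d * c * ((1 + ‖z‖ ^ 2) * Ee z) := by
        calc ‖z‖ ^ 2 * |dvpi κ (S + ‖z‖ ^ 2)| ≤ (1 + ‖z‖ ^ 2) * (d * (c * Ee z)) :=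
              mul_le_mul (by linarith) (hf' z) (abs_nonneg _) (by positivity)
          _ = _ := by ring
      calc _ ≤ _ := add_le_add h2 h3
        _ = _ := by ring
    calc _ ≤ ((m : ℝ) / 2 * c + d * c) * ((1 + ‖z‖ ^ 2) * Ee z) * 1 :=
          mul_le_mul h1 (hg z) (abs_nonneg _) (by have := (hE0 z).le; positivity)
      _ = _ := by rw [mul_one]
  have cdz : Continuous (fun z : E m => dz K S R z (a - R z)) := by
    refine Continuous.div (by fun_prop) (by fun_prop) fun z => ?_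
    positivity
  set G : ℝ := ∑ i : Fin m, 2 * (1 + 1 / (K * S)) * ‖R (eb m i)‖ with hG
  have hGi : ∀ i : Fin m, 2 * (1 + 1 / (K * S)) * ‖R (eb m i)‖ ≤ G := fun i =>
    Finset.single_le_sum (f := fun i : Fin m => 2 * (1 + 1 / (K * S)) * ‖R (eb m i)‖)
      (fun i _ => by positivity) (Finset.mem_univ i)
  have hG0 : 0 ≤ G := Finset.sum_nonneg fun i _ => by positivity
  have hdz : ∀ z : E m, |dz K S R z (a - R z)| ≤ ‖z‖ * G := by
    intro z
    rw [← sum_gd, hG, Finset.mul_sum]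
    refine (Finset.abs_sum_le_sum_abs _ _).trans (Finset.sum_le_sum fun i _ => ?_)
    rw [abs_mul]
    exact mul_le_mul (abs_inner_eb z i) (abs_gd_le hK hS R _ _) (abs_nonneg _) (norm_nonneg _)
  have I2 : Integrable (fun z : E m => vpi κ (S + ‖z‖ ^ 2) * dz K S R z (a - R z)) := by
    refine integrable_of_gauss _ (cf.mul cdz) (c * G) fun z => ?_
    rw [abs_mul, abs_of_pos (hf0 z)]
    calc vpi κ (S + ‖z‖ ^ 2) * |dz K S R z (a - R z)| ≤ (c * Ee z) * ((1 + ‖z‖ ^ 2) * G) := by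
          refine mul_le_mul (hf z) ((hdz z).trans ?_) (abs_nonneg _) (by have := (hE0 z).le; positivity)
          exact mul_le_mul_of_nonneg_right (le_quad _) hG0
      _ = _ := by ring
  -- the derivatives
  let F : Fin m → E m → ℝ := fun i z => vpi κ (S + ‖z‖ ^ 2) * ⟪z, eb m i⟫ * psi K S (a - R z)
  let F' : Fin m → E m → ℝ := fun i z =>
    (dvpi κ (S + ‖z‖ ^ 2) * (2 * ⟪z, eb m i⟫) * ⟪z, eb m i⟫ + vpi κ (S + ‖z‖ ^ 2) * 1) *
      psi K S (a - R z) + vpi κ (S + ‖z‖ ^ 2) * ⟪z, eb m i⟫ * gd K S R (eb m i) (a - R z)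
  have hder : ∀ i z, HasLineDerivAt ℝ (F i) (F' i z) z (eb m i) := by
    intro i z
    have h1 := line_comp (vpi κ) _ S z (eb m i) (hasDerivAt_vpi κ (T := S + ‖z‖ ^ 2)
      (by positivity))
    have h2 := line_inner z (eb m i)
    rw [norm_eb, one_pow] at h2
    have h3 := line_psi hK hS R a z (eb m i)
    have h4 := HasDerivAt.mul (HasDerivAt.mul h1 h2) h3
    refine h4.congr_deriv ?_
    simp only [zero_smul, add_zero, Pi.mul_apply, F']
  have IF : ∀ i, Integrable (F i) := by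
    intro i
    refine integrable_of_gauss _ (by fun_prop) c fun z => ?_
    simp only [F]
    rw [abs_mul, abs_mul, abs_of_pos (hf0 z)]
    calc vpi κ (S + ‖z‖ ^ 2) * |⟪z, eb m i⟫| * |psi K S (a - R z)|
        ≤ (c * Ee z) * (1 + ‖z‖ ^ 2) * 1 := by
          refine mul_le_mul (mul_le_mul (hf z) ((abs_inner_eb z i).trans (le_quad _)) (abs_nonneg _)
            (by have := (hE0 z).le; positivity)) (hg z) (abs_nonneg _)
            (by have := (hE0 z).le; positivity)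
      _ = _ := by ring
  have IF' : ∀ i, Integrable (F' i) := by
    intro i
    have cgd := cont_gd hK hS R a (eb m i)
    refine integrable_of_gauss _ (by fun_prop) (2 * d * c + c + c * G) fun z => ?_
    have hE := (hE0 z).le
    have h1 : |dvpi κ (S + ‖z‖ ^ 2) * (2 * ⟪z, eb m i⟫) * ⟪z, eb m i⟫| ≤
        2 * d * c * ((1 + ‖z‖ ^ 2) * Ee z) := by
      have e : dvpi κ (S + ‖z‖ ^ 2) * (2 * ⟪z, eb m i⟫) * ⟪z, eb m i⟫ =
          2 * (dvpi κ (S + ‖z‖ ^ 2) * ⟪z, eb m i⟫ ^ 2) := by ring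
      rw [e, abs_mul, abs_two, abs_mul, abs_pow]
      have h2 : |⟪z, eb m i⟫| ^ 2 ≤ 1 + ‖z‖ ^ 2 := by
        have := pow_le_pow_left₀ (abs_nonneg _) (abs_inner_eb z i) 2
        linarith
      calc 2 * (|dvpi κ (S + ‖z‖ ^ 2)| * |⟪z, eb m i⟫| ^ 2)
          ≤ 2 * (d * (c * Ee z) * (1 + ‖z‖ ^ 2)) :=
            mul_le_mul_of_nonneg_left (mul_le_mul (hf' z) h2 (by positivity) (by positivity))
              (by norm_num)
        _ = _ := by ring
    have h2 : |vpi κ (S + ‖z‖ ^ 2) * 1| ≤ c * ((1 + ‖z‖ ^ 2) * Ee z) := by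
      rw [mul_one, abs_of_pos (hf0 z)]
      calc vpi κ (S + ‖z‖ ^ 2) ≤ c * (1 * Ee z) := by rw [one_mul]; exact hf z
        _ ≤ c * ((1 + ‖z‖ ^ 2) * Ee z) := by
            refine mul_le_mul_of_nonneg_left (mul_le_mul_of_nonneg_right ?_ hE) hc0.le
            linarith [sq_nonneg ‖z‖]
    have h3 : |vpi κ (S + ‖z‖ ^ 2) * ⟪z, eb m i⟫ * gd K S R (eb m i) (a - R z)| ≤
        c * G * ((1 + ‖z‖ ^ 2) * Ee z) := by
      rw [abs_mul, abs_mul, abs_of_pos (hf0 z)]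
      calc _ ≤ (c * Ee z) * (1 + ‖z‖ ^ 2) * G := by
            refine mul_le_mul (mul_le_mul (hf z) ((abs_inner_eb z i).trans (le_quad _))
              (abs_nonneg _) (by positivity)) ((abs_gd_le hK hS R _ _).trans (hGi i))
              (abs_nonneg _) (by positivity)
        _ = _ := by ring
    simp only [F']
    refine (abs_add_le _ _).trans ?_
    rw [abs_mul]
    have h4 := (abs_add_le (dvpi κ (S + ‖z‖ ^ 2) * (2 * ⟪z, eb m i⟫) * ⟪z, eb m i⟫)
      (vpi κ (S + ‖z‖ ^ 2) * 1)).trans (add_le_add h1 h2)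
    have h5 := (mul_le_mul h4 (hg z) (abs_nonneg _) (by positivity)).trans_eq (mul_one _)
    calc _ ≤ _ := add_le_add h5 h3
      _ = _ := by ring
  have hzero : ∀ i, ∫ z, F' i z = 0 := fun i =>
    integral_deriv_zero (F i) (F' i) (eb m i) (IF i) (IF' i) (hder i)
  have hsum : ∫ z, ∑ i, F' i z = 0 := by
    rw [integral_finsetSum _ fun i _ => IF' i]
    exact Finset.sum_eq_zero fun i _ => hzero i
  have e : ∀ z : E m, ∑ i, F' i z = 2 * ((((m : ℝ) / 2) * vpi κ (S + ‖z‖ ^ 2) +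
      ‖z‖ ^ 2 * dvpi κ (S + ‖z‖ ^ 2)) * psi K S (a - R z)) +
      vpi κ (S + ‖z‖ ^ 2) * dz K S R z (a - R z) := by
    intro z
    rw [← sum_gd, Finset.mul_sum]
    simp only [F']
    rw [Finset.sum_add_distrib, ← Finset.sum_mul, Finset.sum_add_distrib]
    have e1 : ∑ i : Fin m, dvpi κ (S + ‖z‖ ^ 2) * (2 * ⟪z, eb m i⟫) * ⟪z, eb m i⟫ =
        2 * (‖z‖ ^ 2 * dvpi κ (S + ‖z‖ ^ 2)) := by
      rw [← sum_sq z, Finset.sum_mul, Finset.mul_sum]
      exact Finset.sum_congr rfl fun i _ => by ring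
    rw [e1, Finset.sum_const, Finset.card_univ, Fintype.card_fin, nsmul_eq_mul]
    have e2 : ∑ i : Fin m, vpi κ (S + ‖z‖ ^ 2) * ⟪z, eb m i⟫ * gd K S R (eb m i) (a - R z) =
        ∑ i : Fin m, vpi κ (S + ‖z‖ ^ 2) * (⟪z, eb m i⟫ * gd K S R (eb m i) (a - R z)) :=
      Finset.sum_congr rfl fun i _ => by ring
    rw [e2]
    ring
  simp_rw [e] at hsum
  rw [integral_add (I1.const_mul 2) I2, integral_const_mul] at hsum
  linarith

theorem s_IBP2 (hOM : S_OM) : S_IBP2 := by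
  intro m k κ K S hκ hK hS R a
  obtain ⟨hO, -, -⟩ := hOM κ hκ
  set c := S ^ (-κ - 1) with hc
  have hc0 : 0 < c := by rw [hc]; positivity
  have hf : ∀ z : E m, vpi κ (S + ‖z‖ ^ 2) ≤ c * Real.exp (-‖z‖ ^ 2 / 2) := fun z =>
    vpi_le κ hκ hS (sq_nonneg _)
  have hf0 : ∀ z : E m, 0 < vpi κ (S + ‖z‖ ^ 2) := fun z => vpi_pos κ (by positivity)
  have hO0 : ∀ z : E m, 0 < Om κ (S + ‖z‖ ^ 2) := fun z => (hO _ (by positivity)).2.2.2.2.1
  have hO1 : ∀ z : E m, Om κ (S + ‖z‖ ^ 2) ≤ 2 * (c * Real.exp (-‖z‖ ^ 2 / 2)) := fun z =>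
    (hO _ (by positivity)).2.2.2.2.2.trans (by linarith [hf z])
  have cf := cont_comp (m := m) (vpi κ) (cont_vpi κ) hS
  have cO := cont_comp (m := m) (Om κ) (fun T hT => (hO T hT).2.2.2.1.continuousAt) hS
  set Ee : E m → ℝ := fun z => Real.exp (-‖z‖ ^ 2 / 2) with hEe
  have hE0 : ∀ z, 0 < Ee z := fun z => Real.exp_pos _
  have hE1 : ∀ z, Ee z ≤ (1 + ‖z‖ ^ 2) * Ee z := fun z =>
    le_mul_of_one_le_left (hE0 z).le (by linarith [sq_nonneg ‖z‖])
  set A := K * S with hA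
  have hA0 : 0 < A := mul_pos hK hS
  have cdz : Continuous (fun z : E m => dz K S R z (a - R z)) := by
    refine Continuous.div (by fun_prop) (by fun_prop) fun z => ?_
    positivity
  set G : ℝ := ∑ i : Fin m, 2 * (1 + 1 / (K * S)) * ‖R (eb m i)‖ with hG
  have hGi : ∀ i : Fin m, 2 * (1 + 1 / (K * S)) * ‖R (eb m i)‖ ≤ G := fun i =>
    Finset.single_le_sum (f := fun i : Fin m => 2 * (1 + 1 / (K * S)) * ‖R (eb m i)‖)
      (fun i _ => by positivity) (Finset.mem_univ i)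
  have hG0 : 0 ≤ G := Finset.sum_nonneg fun i _ => by positivity
  have hdz : ∀ z : E m, |dz K S R z (a - R z)| ≤ ‖z‖ * G := by
    intro z
    rw [← sum_gd, hG, Finset.mul_sum]
    refine (Finset.abs_sum_le_sum_abs _ _).trans (Finset.sum_le_sum fun i _ => ?_)
    rw [abs_mul]
    exact mul_le_mul (abs_inner_eb z i) (abs_gd_le hK hS R _ _) (abs_nonneg _) (norm_nonneg _)
  have I2 : Integrable (fun z : E m => vpi κ (S + ‖z‖ ^ 2) * dz K S R z (a - R z)) := by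
    refine integrable_of_gauss _ (cf.mul cdz) (c * G) fun z => ?_
    rw [abs_mul, abs_of_pos (hf0 z)]
    calc vpi κ (S + ‖z‖ ^ 2) * |dz K S R z (a - R z)| ≤ (c * Ee z) * ((1 + ‖z‖ ^ 2) * G) := by
          refine mul_le_mul (hf z) ((hdz z).trans ?_) (abs_nonneg _) (by have := (hE0 z).le; positivity)
          exact mul_le_mul_of_nonneg_right (le_quad _) hG0
      _ = _ := by ring
  -- the second derivatives
  let H2 : E m → E m → ℝ := fun v z => K * S * (-2 * ‖R v‖ ^ 2 / (K * S + ‖a - R z‖ ^ 2) ^ 2 +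
        8 * ⟪a - R z, R v⟫ ^ 2 / (K * S + ‖a - R z‖ ^ 2) ^ 3)
  have cH2 : ∀ v, Continuous (H2 v) := by
    intro v
    refine continuous_const.mul (Continuous.add (Continuous.div (by fun_prop) (by fun_prop)
      fun z => by positivity) (Continuous.div (by fun_prop) (by fun_prop) fun z => by positivity))
  have hH2 : ∀ v z, |H2 v z| ≤ 10 * ‖R v‖ ^ 2 / A := by
    intro v z
    set x := a - R z with hx
    have hX : 0 < A + ‖x‖ ^ 2 := by positivity
    have h1 : ⟪x, R v⟫ ^ 2 ≤ ‖x‖ ^ 2 * ‖R v‖ ^ 2 := by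
      have := pow_le_pow_left₀ (abs_nonneg _) (abs_real_inner_le_norm x (R v)) 2
      rwa [sq_abs, mul_pow] at this
    have h2 : A / (A + ‖x‖ ^ 2) ≤ 1 := by
      rw [div_le_one hX]; linarith [sq_nonneg ‖x‖]
    have h3 : ‖x‖ ^ 2 / (A + ‖x‖ ^ 2) ≤ 1 := by
      rw [div_le_one hX]; linarith
    have h4 : 1 / (A + ‖x‖ ^ 2) ≤ 1 / A := one_div_le_one_div_of_le hA0 (by linarith [sq_nonneg ‖x‖])
    have e1 : H2 v z = -(2 * ‖R v‖ ^ 2 * (A / (A + ‖x‖ ^ 2) * (1 / (A + ‖x‖ ^ 2)))) +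
        8 * (A / (A + ‖x‖ ^ 2) * (⟪x, R v⟫ ^ 2 / (A + ‖x‖ ^ 2) * (1 / (A + ‖x‖ ^ 2)))) := by
      simp only [H2]
      rw [← hx, ← hA]
      field_simp
    have h5 : A / (A + ‖x‖ ^ 2) * (1 / (A + ‖x‖ ^ 2)) ≤ 1 * (1 / A) :=
      mul_le_mul h2 h4 (by positivity) (by norm_num)
    have h6 : ⟪x, R v⟫ ^ 2 / (A + ‖x‖ ^ 2) ≤ ‖R v‖ ^ 2 := by
      calc ⟪x, R v⟫ ^ 2 / (A + ‖x‖ ^ 2) ≤ ‖x‖ ^ 2 * ‖R v‖ ^ 2 / (A + ‖x‖ ^ 2) :=
            div_le_div_of_nonneg_right h1 hX.le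
        _ = ‖x‖ ^ 2 / (A + ‖x‖ ^ 2) * ‖R v‖ ^ 2 := by ring
        _ ≤ 1 * ‖R v‖ ^ 2 := mul_le_mul_of_nonneg_right h3 (sq_nonneg _)
        _ = _ := one_mul _
    have h7 : A / (A + ‖x‖ ^ 2) * (⟪x, R v⟫ ^ 2 / (A + ‖x‖ ^ 2) * (1 / (A + ‖x‖ ^ 2))) ≤
        1 * (‖R v‖ ^ 2 * (1 / A)) :=
      mul_le_mul h2 (mul_le_mul h6 h4 (by positivity) (by positivity)) (by positivity)
        (by norm_num)
    have h8 : 0 ≤ A / (A + ‖x‖ ^ 2) * (1 / (A + ‖x‖ ^ 2)) := by positivity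
    have h9 : 0 ≤ A / (A + ‖x‖ ^ 2) * (⟪x, R v⟫ ^ 2 / (A + ‖x‖ ^ 2) * (1 / (A + ‖x‖ ^ 2))) := by
      positivity
    rw [e1]
    refine (abs_add_le _ _).trans ?_
    rw [abs_neg, abs_of_nonneg (by positivity), abs_of_nonneg (by positivity)]
    calc _ ≤ 2 * ‖R v‖ ^ 2 * (1 * (1 / A)) + 8 * (1 * (‖R v‖ ^ 2 * (1 / A))) :=
          add_le_add (mul_le_mul_of_nonneg_left h5 (by positivity))
            (mul_le_mul_of_nonneg_left h7 (by norm_num))
      _ = _ := by ring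
  have hlap : ∀ z : E m, lap K S R (a - R z) = ∑ i, H2 (eb m i) z := by
    intro z
    simp only [H2]
    rw [lap, tau, rx, ← Finset.mul_sum, Finset.sum_add_distrib, ← Finset.sum_div, ← Finset.sum_div,
      ← Finset.mul_sum, ← Finset.mul_sum]
  have clap : Continuous (fun z : E m => lap K S R (a - R z)) := by
    simp_rw [hlap]
    exact continuous_finsetSum _ fun i _ => cH2 _
  set T : ℝ := ∑ i : Fin m, 10 * ‖R (eb m i)‖ ^ 2 / A with hT
  have hTi : ∀ i : Fin m, 10 * ‖R (eb m i)‖ ^ 2 / A ≤ T := fun i =>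
    Finset.single_le_sum (f := fun i : Fin m => 10 * ‖R (eb m i)‖ ^ 2 / A)
      (fun i _ => by positivity) (Finset.mem_univ i)
  have hT0 : 0 ≤ T := Finset.sum_nonneg fun i _ => by positivity
  have I1 : Integrable (fun z : E m => Om κ (S + ‖z‖ ^ 2) * lap K S R (a - R z)) := by
    refine integrable_of_gauss _ (cO.mul clap) (2 * c * T) fun z => ?_
    have hE := (hE0 z).le
    rw [abs_mul, abs_of_pos (hO0 z), hlap z]
    calc _ ≤ 2 * (c * Ee z) * T := by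
          refine mul_le_mul (hO1 z) ((Finset.abs_sum_le_sum_abs _ _).trans
            (Finset.sum_le_sum fun i _ => hH2 _ z)) (abs_nonneg _) (by positivity)
      _ = 2 * c * T * Ee z := by ring
      _ ≤ 2 * c * T * ((1 + ‖z‖ ^ 2) * Ee z) := mul_le_mul_of_nonneg_left (hE1 z) (by positivity)
  let F : Fin m → E m → ℝ := fun i z => Om κ (S + ‖z‖ ^ 2) * gd K S R (eb m i) (a - R z)
  let F' : Fin m → E m → ℝ := fun i z =>
    -vpi κ (S + ‖z‖ ^ 2) * (2 * ⟪z, eb m i⟫) * gd K S R (eb m i) (a - R z) +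
      Om κ (S + ‖z‖ ^ 2) * H2 (eb m i) z
  have hder : ∀ i z, HasLineDerivAt ℝ (F i) (F' i z) z (eb m i) := by
    intro i z
    have h1 := line_comp (Om κ) _ S z (eb m i) (hO (S + ‖z‖ ^ 2) (by positivity)).2.2.2.1
    have h3 := line_gd hK hS R a z (eb m i)
    have h4 := HasDerivAt.mul h1 h3
    refine h4.congr_deriv ?_
    simp only [zero_smul, add_zero, F', H2]
  have IF : ∀ i, Integrable (F i) := by
    intro i
    have cgd := cont_gd hK hS R a (eb m i)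
    refine integrable_of_gauss _ (cO.mul cgd) (2 * c * G) fun z => ?_
    have hE := (hE0 z).le
    simp only [F]
    rw [abs_mul, abs_of_pos (hO0 z)]
    calc _ ≤ 2 * (c * Ee z) * G :=
          mul_le_mul (hO1 z) ((abs_gd_le hK hS R _ _).trans (hGi i)) (abs_nonneg _) (by positivity)
      _ = 2 * c * G * Ee z := by ring
      _ ≤ 2 * c * G * ((1 + ‖z‖ ^ 2) * Ee z) := mul_le_mul_of_nonneg_left (hE1 z) (by positivity)
  have IF' : ∀ i, Integrable (F' i) := by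
    intro i
    have cgd := cont_gd hK hS R a (eb m i)
    have ch := cH2 (eb m i)
    refine integrable_of_gauss _ (by fun_prop) (2 * c * G + 2 * c * T) fun z => ?_
    have hE := (hE0 z).le
    simp only [F']
    refine (abs_add_le _ _).trans ?_
    have h1 : |-vpi κ (S + ‖z‖ ^ 2) * (2 * ⟪z, eb m i⟫) * gd K S R (eb m i) (a - R z)| ≤
        2 * c * G * ((1 + ‖z‖ ^ 2) * Ee z) := by
      rw [abs_mul, abs_mul, abs_neg, abs_of_pos (hf0 z), abs_mul, abs_two]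
      calc _ ≤ (c * Ee z) * (2 * (1 + ‖z‖ ^ 2)) * G := by
            refine mul_le_mul (mul_le_mul (hf z) (mul_le_mul_of_nonneg_left
              ((abs_inner_eb z i).trans (le_quad _)) (by norm_num)) (by positivity) (by positivity))
              ((abs_gd_le hK hS R _ _).trans (hGi i)) (abs_nonneg _) (by positivity)
        _ = _ := by ring
    have h2 : |Om κ (S + ‖z‖ ^ 2) * H2 (eb m i) z| ≤ 2 * c * T * ((1 + ‖z‖ ^ 2) * Ee z) := by
      rw [abs_mul, abs_of_pos (hO0 z)]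
      calc _ ≤ 2 * (c * Ee z) * T :=
            mul_le_mul (hO1 z) ((hH2 _ z).trans (hTi i)) (abs_nonneg _) (by positivity)
        _ = 2 * c * T * Ee z := by ring
        _ ≤ _ := mul_le_mul_of_nonneg_left (hE1 z) (by positivity)
    calc _ ≤ _ := add_le_add h1 h2
      _ = _ := by ring
  have hzero : ∀ i, ∫ z, F' i z = 0 := fun i =>
    integral_deriv_zero (F i) (F' i) (eb m i) (IF i) (IF' i) (hder i)
  have hsum : ∫ z, ∑ i, F' i z = 0 := by
    rw [integral_finsetSum _ fun i _ => IF' i]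
    exact Finset.sum_eq_zero fun i _ => hzero i
  have e : ∀ z : E m, ∑ i, F' i z = (-2) * (vpi κ (S + ‖z‖ ^ 2) * dz K S R z (a - R z)) +
      Om κ (S + ‖z‖ ^ 2) * lap K S R (a - R z) := by
    intro z
    rw [← sum_gd, hlap z, Finset.mul_sum, Finset.mul_sum, Finset.mul_sum, ← Finset.sum_add_distrib]
    refine Finset.sum_congr rfl fun i _ => ?_
    simp only [F']
    ring
  simp_rw [e] at hsum
  rw [integral_add (I2.const_mul (-2)) I1, integral_const_mul] at hsum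
  linarith

end Pool.Agent.L7h37.PDH
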