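import Pool.Agent.L7h37.PDH.Base

set_option autoImplicit false

/-! Project PD (helper38): `S_IBP1b`. -/

namespace Pool.Agent.L7h37.PDH

open Pool.Agent.L7h38.PD MeasureTheory Set Filter Topology
open scoped RealInnerProductSpace

theorem dS_bounds {k : ℕ} {K S : ℝ} (hK : 0 < K) (hS : 0 < S) (x : E k) :
    0 ≤ dS K S x ∧ dS K S x ≤ 1 := by
  rw [dS]
  refine ⟨by positivity, ?_⟩
  rw [div_le_one (by positivity)]
  have h1 : 0 < K * S := by positivity
  nlinarith [sq_nonneg (K * S), sq_nonneg ‖x‖, mul_nonneg h1.le (sq_nonneg ‖x‖), sq_nonneg (‖x‖ ^ 2)]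

theorem s_IBP1b : S_IBP1b := by
  intro k b κ K r hb hκ hK hr x
  set c := r ^ (-κ - 1) with hc
  have hc0 : 0 < c := by rw [hc]; positivity
  -- bounds
  have hv : ∀ S : ℝ, 0 < S → vpi κ (S + r) ≤ c * Real.exp (-(1 / 2) * S) := by
    intro S hS
    have := vpi_le κ hκ hr hS.le
    rw [add_comm]
    refine this.trans (le_of_eq ?_)
    rw [hc]
    congr 2
    ring
  have hv0 : ∀ S : ℝ, 0 < S → 0 < vpi κ (S + r) := fun S hS => vpi_pos κ (by linarith)
  have hd : ∀ S : ℝ, 0 < S → |dvpi κ (S + r)| ≤ ((κ + 1) / r + 1 / 2) * vpi κ (S + r) := by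
    intro S hS
    have := abs_dvpi_le κ hκ hr hS.le
    rwa [add_comm r S] at this
  have hg : ∀ s : ℝ, 0 < s → IntegrableOn (fun S : ℝ => S ^ (s - 1) * Real.exp (-(1 / 2) * S))
      (Ioi 0) := by
    intro s hs
    have := integrableOn_rpow_mul_exp_neg_mul_rpow (s := s - 1) (p := 1) (b := 1 / 2)
      (by linarith) one_pos (by norm_num)
    simpa only [Real.rpow_one] using this
  have hcv : ContinuousOn (fun S : ℝ => vpi κ (S + r)) (Ioi 0) := by
    intro S hS
    have h1 := (hasDerivAt_vpi κ (T := S + r) (by have := mem_Ioi.1 hS; linarith)).continuousAt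
    exact (ContinuousAt.comp (f := fun S : ℝ => S + r) h1
      (by fun_prop)).continuousWithinAt
  have hcd : ContinuousOn (fun S : ℝ => dvpi κ (S + r)) (Ioi 0) := by
    have h1 : ContinuousOn (fun S : ℝ => -((κ + 1) / (S + r) + 1 / 2)) (Ioi 0) := by
      refine ContinuousOn.neg (ContinuousOn.add (ContinuousOn.div continuousOn_const
        (by fun_prop) fun S hS => ?_) continuousOn_const)
      have := mem_Ioi.1 hS
      exact (by linarith : 0 < S + r).ne'
    exact h1.mul hcv
  have hcψ : ContinuousOn (fun S : ℝ => psi K S x) (Ioi 0) := by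
    refine ContinuousOn.div (by fun_prop) (by fun_prop) fun S hS => ?_
    have := mem_Ioi.1 hS
    positivity
  have hcD : ContinuousOn (fun S : ℝ => K * ‖x‖ ^ 2 / (K * S + ‖x‖ ^ 2) ^ 2) (Ioi 0) := by
    refine ContinuousOn.div (by fun_prop) (by fun_prop) fun S hS => ?_
    have := mem_Ioi.1 hS
    positivity
  have hcp : ∀ s : ℝ, ContinuousOn (fun S : ℝ => S ^ s) (Ioi 0) := fun s S hS =>
    (Real.continuousAt_rpow_const _ _ (Or.inl (mem_Ioi.1 hS).ne')).continuousWithinAt
  -- the functions
  let u : ℝ → ℝ := fun S => S ^ b * vpi κ (S + r)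
  let u' : ℝ → ℝ := fun S => b * S ^ (b - 1) * vpi κ (S + r) + S ^ b * dvpi κ (S + r)
  let v : ℝ → ℝ := fun S => psi K S x
  let v' : ℝ → ℝ := fun S => K * ‖x‖ ^ 2 / (K * S + ‖x‖ ^ 2) ^ 2
  have hu : ∀ S ∈ Ioi (0 : ℝ), HasDerivAt u (u' S) S := by
    intro S hS
    have hS := mem_Ioi.1 hS
    have h1 := Real.hasDerivAt_rpow_const (x := S) (p := b) (Or.inl hS.ne')
    have h2 : HasDerivAt (fun S : ℝ => vpi κ (S + r)) (dvpi κ (S + r)) S :=
      (hasDerivAt_vpi κ (T := S + r) (by linarith)).comp_add_const S r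
    exact h1.mul h2
  have hv' : ∀ S ∈ Ioi (0 : ℝ), HasDerivAt v (v' S) S := by
    intro S hS
    have hS := mem_Ioi.1 hS
    have h1 : HasDerivAt (fun S : ℝ => K * S) K S := by
      simpa using (hasDerivAt_id S).const_mul K
    have h2 := h1.div (h1.add_const (‖x‖ ^ 2)) (by positivity)
    refine h2.congr_deriv ?_
    simp only [v']
    congr 1
    ring
  have habs : ∀ S : ℝ, 0 < S → |psi K S x| ≤ 1 := fun S hS => by
    rw [abs_of_nonneg (psi_nonneg hK hS x)]
    exact psi_le_one hK hS x
  have hSS : ∀ S : ℝ, 0 < S → S ^ b = S ^ (b - 1) * S := fun S hS => by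
    rw [← Real.rpow_add_one hS.ne', sub_add_cancel]
  have huv' : IntegrableOn (u * v') (Ioi 0) := by
    refine Integrable.mono' ((hg b hb).const_mul c) ?_ ?_
    · exact (((hcp b).mul hcv).mul hcD).aestronglyMeasurable measurableSet_Ioi
    · refine (ae_restrict_iff' measurableSet_Ioi).2 (Eventually.of_forall fun S hS => ?_)
      have hS := mem_Ioi.1 hS
      have e1 : (u * v') S = S ^ (b - 1) * vpi κ (S + r) * dS K S x := by
        simp only [Pi.mul_apply, u, v', dS, hSS S hS]
        ring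
      obtain ⟨d1, d2⟩ := dS_bounds hK hS x
      have hp : 0 < S ^ (b - 1) := by positivity
      rw [e1, Real.norm_of_nonneg (mul_nonneg (mul_nonneg hp.le (hv0 S hS).le) d1)]
      calc S ^ (b - 1) * vpi κ (S + r) * dS K S x ≤
            S ^ (b - 1) * (c * Real.exp (-(1 / 2) * S)) * 1 :=
            mul_le_mul (mul_le_mul_of_nonneg_left (hv S hS) hp.le) d2 d1 (by positivity)
        _ = c * (S ^ (b - 1) * Real.exp (-(1 / 2) * S)) := by ring
  have hu'v : IntegrableOn (u' * v) (Ioi 0) := by
    refine Integrable.mono' (((hg b hb).const_mul (b * c)).add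
      ((hg (b + 1) (by linarith)).const_mul (((κ + 1) / r + 1 / 2) * c))) ?_ ?_
    · refine ContinuousOn.aestronglyMeasurable ?_ measurableSet_Ioi
      exact (((continuousOn_const.mul (hcp (b - 1))).mul hcv).add ((hcp b).mul hcd)).mul hcψ
    · refine (ae_restrict_iff' measurableSet_Ioi).2 (Eventually.of_forall fun S hS => ?_)
      have hS := mem_Ioi.1 hS
      have hp : 0 < S ^ (b - 1) := by positivity
      have hp' : 0 < S ^ b := by positivity
      have h1 : |u' S| ≤ b * c * (S ^ (b - 1) * Real.exp (-(1 / 2) * S)) +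
          ((κ + 1) / r + 1 / 2) * c * (S ^ b * Real.exp (-(1 / 2) * S)) := by
        refine (abs_add_le _ _).trans (add_le_add ?_ ?_)
        · rw [abs_of_nonneg (by have := (hv0 S hS).le; positivity)]
          calc b * S ^ (b - 1) * vpi κ (S + r) ≤
                b * S ^ (b - 1) * (c * Real.exp (-(1 / 2) * S)) :=
                mul_le_mul_of_nonneg_left (hv S hS) (by positivity)
            _ = _ := by ring
        · rw [abs_mul, abs_of_pos hp']
          calc S ^ b * |dvpi κ (S + r)| ≤
                S ^ b * (((κ + 1) / r + 1 / 2) * (c * Real.exp (-(1 / 2) * S))) := by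
                refine mul_le_mul_of_nonneg_left ((hd S hS).trans ?_) hp'.le
                exact mul_le_mul_of_nonneg_left (hv S hS) (by positivity)
            _ = _ := by ring
      rw [Pi.mul_apply, norm_mul, Real.norm_eq_abs, Real.norm_eq_abs]
      have h2 : |u' S| * |v S| ≤ |u' S| * 1 := mul_le_mul_of_nonneg_left (habs S hS) (abs_nonneg _)
      rw [mul_one] at h2
      refine (h2.trans h1).trans (le_of_eq ?_)
      simp only [Pi.add_apply, add_sub_cancel_right]
  have hbd : ∀ S : ℝ, 0 < S → |(u * v) S| ≤ c * (S ^ b * Real.exp (-(1 / 2) * S)) := by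
    intro S hS
    have hp' : 0 < S ^ b := by positivity
    rw [Pi.mul_apply, abs_mul]
    calc |u S| * |v S| ≤ (S ^ b * (c * Real.exp (-(1 / 2) * S))) * 1 := by
          refine mul_le_mul ?_ (habs S hS) (abs_nonneg _) (by positivity)
          rw [abs_of_nonneg (mul_nonneg hp'.le (hv0 S hS).le)]
          exact mul_le_mul_of_nonneg_left (hv S hS) hp'.le
      _ = _ := by ring
  have hzero : Tendsto (u * v) (𝓝[>] 0) (𝓝 0) := by
    have h1 : Tendsto (fun S : ℝ => c * (S ^ b * Real.exp (-(1 / 2) * S))) (𝓝[>] 0) (𝓝 0) := by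
      have h2 : ContinuousAt (fun S : ℝ => c * (S ^ b * Real.exp (-(1 / 2) * S))) 0 := by
        refine continuousAt_const.mul ((Real.continuousAt_rpow_const _ _ (Or.inr hb.le)).mul ?_)
        fun_prop
      have h3 := h2.tendsto
      simp only [Real.zero_rpow hb.ne', zero_mul, mul_zero] at h3
      exact h3.mono_left nhdsWithin_le_nhds
    refine squeeze_zero_norm' ?_ h1
    filter_upwards [self_mem_nhdsWithin] with S hS
    exact hbd S hS
  have hinf : Tendsto (u * v) atTop (𝓝 0) := by
    have h1 : Tendsto (fun S : ℝ => c * (S ^ b * Real.exp (-(1 / 2) * S))) atTop (𝓝 0) := by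
      have := (tendsto_rpow_mul_exp_neg_mul_atTop_nhds_zero b (1 / 2) (by norm_num)).const_mul c
      rwa [mul_zero] at this
    refine squeeze_zero_norm' ?_ h1
    filter_upwards [eventually_gt_atTop 0] with S hS
    exact hbd S hS
  have key := integral_Ioi_mul_deriv_eq_deriv_mul hu hv' huv' hu'v hzero hinf
  rw [sub_zero, zero_sub] at key
  have e1 : ∫ S in Ioi (0 : ℝ), u S * v' S =
      ∫ S in Ioi (0 : ℝ), S ^ (b - 1) * vpi κ (S + r) * dS K S x := by
    refine setIntegral_congr_fun measurableSet_Ioi fun S hS => ?_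
    have hS := mem_Ioi.1 hS
    simp only [u, v', dS, hSS S hS]
    ring
  rw [← e1, key, neg_neg]

end Pool.Agent.L7h37.PDH
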