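import Pool.Agent.L7h38.PD.Stm

set_option autoImplicit false

/-! Project PD (helper38): `S_LOG`, `S_PWR`. -/

namespace Pool.Agent.L7h37.PDH

open Pool.Agent.L7h38.PD

theorem s_LOG : S_LOG := by
  intro b h S Q ε hb hh hS hQ hε0 hε1
  have h1 : 0 < 1 - ε := by linarith
  have hSQ : 0 < S + Q := by linarith
  have hA : 0 < (1 - ε) * S := mul_pos h1 hS
  have hB : 0 < (1 - ε) * S + Q := by linarith
  set B := S / (S + Q) with hBdef
  have hB0 : 0 < B := div_pos hS hSQ
  have hB1 : B ≤ 1 := (div_le_one hSQ).2 (by linarith)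
  have hεB : 0 < 1 - ε * B := by nlinarith
  have e0 : (1 - ε) * S + Q = (S + Q) * (1 - ε * B) := by
    rw [hBdef]
    field_simp
    ring
  have e1 : Real.log ((((1 - ε) * S) ^ b * ((1 - ε) * S + Q) ^ (-(b + h))) /
      (S ^ b * (S + Q) ^ (-(b + h)))) = b * Real.log (1 - ε) - (b + h) * Real.log (1 - ε * B) := by
    rw [Real.log_div (by positivity) (by positivity), Real.log_mul (by positivity) (by positivity),
      Real.log_mul (by positivity) (by positivity), Real.log_rpow hA, Real.log_rpow hB,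
      Real.log_rpow hS, Real.log_rpow hSQ, e0, Real.log_mul h1.ne' hS.ne',
      Real.log_mul hSQ.ne' hεB.ne']
    ring
  rw [e1]
  have h2 : -ε - 2 * ε ^ 2 ≤ Real.log (1 - ε) := by
    have h3 : 1 - (1 - ε)⁻¹ ≤ Real.log (1 - ε) := Real.one_sub_inv_le_log_of_pos h1
    refine le_trans ?_ h3
    rw [le_sub_iff_add_le, ← le_sub_iff_add_le', inv_le_iff_one_le_mul₀ h1]
    nlinarith [sq_nonneg ε, mul_nonneg hε0 (sq_nonneg ε), mul_nonneg (sq_nonneg ε) (by linarith : 0 ≤ 1 - 2 * ε)]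
  have h4 : ε * B ≤ - Real.log (1 - ε * B) := by
    have := Real.log_le_sub_one_of_pos hεB
    linarith
  have e2 : ε * (h * S - b * Q) / (S + Q) = ε * (-b + (b + h) * B) := by
    rw [hBdef]
    field_simp
    ring
  rw [e2]
  have h5 : b * (-ε - 2 * ε ^ 2) ≤ b * Real.log (1 - ε) := mul_le_mul_of_nonneg_left h2 hb.le
  have h6 : (b + h) * (ε * B) ≤ (b + h) * (-Real.log (1 - ε * B)) :=
    mul_le_mul_of_nonneg_left h4 (by linarith)
  nlinarith

theorem s_PWR : S_PWR := by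
  intro α q₁ q₂ p hα1 hα2 hq1 hq2 hp
  rcases eq_or_lt_of_le hα1 with h | h
  · subst h
    have e1 : ((1 : ℝ) + -1) / 2 = 0 := by norm_num
    have e2 : ((1 : ℝ) - -1) / 2 = 1 := by norm_num
    rw [fdiv, fdiv, if_pos rfl, if_pos rfl, e1, e2, Real.rpow_zero, Real.rpow_one,
      Real.log_div hq1.ne' hq2.ne', Real.log_div hq1.ne' hp.ne', Real.log_div hq2.ne' hp.ne']
    apply le_of_eq
    ring
  · have hne : α ≠ -1 := h.ne'
    rw [fdiv, fdiv, if_neg hne, if_neg hne]
    set s := (1 + α) / 2 with hs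
    have hs0 : 0 < s := by rw [hs]; linarith
    have hs1 : s < 1 := by rw [hs]; linarith
    have e1 : (1 - α) / 2 = 1 - s := by rw [hs]; ring
    have e2 : 1 - α ^ 2 = 4 * (s * (1 - s)) := by rw [hs]; ring
    have e3 : 1 - α = 2 * (1 - s) := by rw [hs]; ring
    rw [e1, e2, e3]
    have hs' : 0 < 1 - s := by linarith
    have e4 : ∀ q : ℝ, 0 < q → (q / p) ^ s * p = q ^ s * p ^ (1 - s) := by
      intro q hq
      rw [Real.div_rpow hq.le hp.le, Real.rpow_sub hp, Real.rpow_one]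
      have := Real.rpow_pos_of_pos hp s
      field_simp
    have e5 : (4 / (4 * (s * (1 - s))) * (1 - (q₂ / p) ^ s) -
        4 / (4 * (s * (1 - s))) * (1 - (q₁ / p) ^ s)) * p =
        1 / (s * (1 - s)) * ((q₁ ^ s - q₂ ^ s) * p ^ (1 - s)) := by
      have : (4 / (4 * (s * (1 - s))) * (1 - (q₂ / p) ^ s) -
        4 / (4 * (s * (1 - s))) * (1 - (q₁ / p) ^ s)) * p =
          4 / (4 * (s * (1 - s))) * ((q₁ / p) ^ s * p - (q₂ / p) ^ s * p) := by ring
      rw [this, e4 q₁ hq1, e4 q₂ hq2]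
      field_simp
    rw [e5]
    have h1 : q₂ ^ s * (s * Real.log (q₁ / q₂)) ≤ q₁ ^ s - q₂ ^ s := by
      have h2 : q₁ ^ s = q₂ ^ s * Real.exp (s * Real.log (q₁ / q₂)) := by
        have h3 : Real.exp (s * Real.log (q₁ / q₂)) = (q₁ / q₂) ^ s := by
          rw [Real.rpow_def_of_pos (by positivity), mul_comm]
        rw [h3, Real.div_rpow hq1.le hq2.le]
        have := Real.rpow_pos_of_pos hq2 s
        field_simp
      rw [h2]
      have h4 := Real.add_one_le_exp (s * Real.log (q₁ / q₂))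
      have h5 : 0 < q₂ ^ s := Real.rpow_pos_of_pos hq2 s
      nlinarith
    have h6 : 0 < p ^ (1 - s) := Real.rpow_pos_of_pos hp _
    calc 2 / (2 * (1 - s)) * (q₂ ^ s * p ^ (1 - s) * Real.log (q₁ / q₂))
        = 1 / (s * (1 - s)) * (q₂ ^ s * (s * Real.log (q₁ / q₂)) * p ^ (1 - s)) := by
          field_simp
      _ ≤ 1 / (s * (1 - s)) * ((q₁ ^ s - q₂ ^ s) * p ^ (1 - s)) :=
          mul_le_mul_of_nonneg_left (mul_le_mul_of_nonneg_right h1 h6.le) (by positivity)

end Pool.Agent.L7h37.PDH
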